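import Pool.Agent.R470.DendriteSeq

/-!
# An ultrametric system with a large DC2½ set and no DC2 pair
-/

open Set Filter Topology Finset

namespace Pool.Agent.R470.DC2

open Pool.Agent.R470.Dendrite

attribute [local instance] PiNat.metricSpace

/-- The index of a dyadic block. -/
def ix (l : ℕ) : ℕ := padicValNat 2 (l + 1)

theorem ix_even {l : ℕ} (h : Even l) : ix l = 0 := by
  unfold ix
  apply padicValNat.eq_zero_of_not_dvd
  obtain ⟨r, hr⟩ := h
  omega

theorem syndetic (i : ℕ) : ∃ g, ∀ L, ∃ l, L ≤ l ∧ l < L + g ∧ ix l = i := by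
  refine ⟨2 ^ (i + 2) + 1, fun L => ?_⟩
  have hpos : 0 < 2 ^ i := by positivity
  have hpos' : 0 < 2 ^ (i + 1) := by positivity
  set t := L / 2 ^ (i + 1) + 1 with ht
  have h1 := Nat.div_add_mod L (2 ^ (i + 1))
  have h2 := Nat.mod_lt L hpos'
  have e1 : 2 ^ i * (2 * t + 1) = 2 ^ (i + 1) * (L / 2 ^ (i + 1)) + 2 ^ (i + 1) + 2 ^ i := by
    rw [ht, pow_succ]; ring
  have e2 : 2 ^ (i + 2) = 2 ^ (i + 1) + 2 ^ (i + 1) := by ring
  have e3 : 2 ^ (i + 1) = 2 ^ i + 2 ^ i := by ring
  refine ⟨2 ^ i * (2 * t + 1) - 1, by omega, by omega, ?_⟩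
  unfold ix
  rw [Nat.sub_add_cancel (by omega), padicValNat.mul (by positivity) (by omega),
    padicValNat.prime_pow, padicValNat.eq_zero_of_not_dvd (by omega), add_zero]

/-- The sequence `y^α`. -/
def Y (α : ℕ → Bool) (k : ℕ) : Bool := α (ix (Nat.log 2 k))

theorem log_eq {l k : ℕ} (h1 : 2 ^ l ≤ k) (h2 : k < 2 ^ (l + 1)) : Nat.log 2 k = l :=
  Nat.log_eq_of_pow_le_of_lt_pow h1 h2

theorem change {k : ℕ} (h : Nat.log 2 k ≠ Nat.log 2 (k + 1)) : ∃ l, k + 1 = 2 ^ l := by
  refine ⟨Nat.log 2 (k + 1), ?_⟩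
  have h1 : 2 ^ Nat.log 2 (k + 1) ≤ k + 1 := Nat.pow_log_le_self 2 (by omega)
  have h2 : k + 1 < 2 ^ (Nat.log 2 (k + 1) + 1) := Nat.lt_pow_succ_log_self (by norm_num) _
  by_contra hcon
  exact h (log_eq (by omega) (by omega))

/-- The shifts by `i` of all `y^α`. -/
def KI (i : ℕ) : Set (ℕ → Bool) := Set.range fun (α : ℕ → Bool) (k : ℕ) => Y α (k + i)

/-- The sequences with at most one change. -/
def C2 : Set (ℕ → Bool) := {x | ∀ a b, a < b → x a = x (a + 1) ∨ x b = x (b + 1)}

/-- The compact invariant set. -/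
def K : Set (ℕ → Bool) := {x | (∃ i, x ∈ KI i) ∨ x ∈ C2}

theorem isClosed_KI (i : ℕ) : IsClosed (KI i) := by
  have : IsCompact (KI i) := by
    apply isCompact_range
    exact continuous_pi fun k => continuous_apply _
  exact this.isClosed

theorem isClosed_C2 : IsClosed C2 := by
  have : C2 = ⋂ a : ℕ, ⋂ b : ℕ, ⋂ _ : a < b, ({x : ℕ → Bool | x a = x (a + 1)} ∪
      {x : ℕ → Bool | x b = x (b + 1)}) := by
    ext x
    simp [C2]
  rw [this]
  refine isClosed_iInter fun a => isClosed_iInter fun b => isClosed_iInter fun _ =>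
    IsClosed.union ?_ ?_
  · exact isClosed_eq (continuous_apply _) (continuous_apply _)
  · exact isClosed_eq (continuous_apply _) (continuous_apply _)

theorem few_changes {x : ℕ → Bool} {a b i : ℕ} (hx : x ∈ KI i) (hab : a < b)
    (ha : x a ≠ x (a + 1)) (hb : x b ≠ x (b + 1)) : i < b := by
  obtain ⟨α, rfl⟩ := hx
  simp only [Y] at ha hb
  have h1 : ∃ l, a + i + 1 = 2 ^ l := by
    apply change
    intro h
    apply ha
    rw [h, show a + 1 + i = a + i + 1 by omega]
  have h2 : ∃ l, b + i + 1 = 2 ^ l := by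
    apply change
    intro h
    apply hb
    rw [h, show b + 1 + i = b + i + 1 by omega]
  obtain ⟨l, hl⟩ := h1
  obtain ⟨l', hl'⟩ := h2
  have hlt : l < l' := by
    rw [← Nat.pow_lt_pow_iff_right (a := 2) (by norm_num)]
    omega
  have h3 : 2 ^ (l + 1) ≤ 2 ^ l' := Nat.pow_le_pow_right (by norm_num) hlt
  rw [pow_succ] at h3
  omega

theorem isClosed_K : IsClosed K := by
  rw [← isOpen_compl_iff, isOpen_iff_mem_nhds]
  intro x hx
  by_contra hcon
  have hcl : x ∈ closure K := by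
    rw [mem_closure_iff_frequently]
    intro h
    exact hcon h
  have hx2 : x ∉ C2 := fun h => hx (Or.inr h)
  simp only [C2, Set.mem_ofPred_eq, not_forall, not_or] at hx2
  obtain ⟨a, b, hab, ha, hb⟩ := hx2
  have hU : IsOpen (PiNat.cylinder x (b + 2)) := PiNat.isOpen_cylinder _ x (b + 2)
  have h1 : x ∈ closure (PiNat.cylinder x (b + 2) ∩ K) :=
    hU.inter_closure ⟨PiNat.self_mem_cylinder _ _, hcl⟩
  have h2 : PiNat.cylinder x (b + 2) ∩ K ⊆ ⋃ i ∈ Finset.range b, KI i := by
    rintro y ⟨hy, hyK⟩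
    rw [PiNat.mem_cylinder_iff] at hy
    have ha' : y a ≠ y (a + 1) := by
      rw [hy a (by omega), hy (a + 1) (by omega)]; exact ha
    have hb' : y b ≠ y (b + 1) := by
      rw [hy b (by omega), hy (b + 1) (by omega)]; exact hb
    rcases hyK with ⟨i, hi⟩ | h
    · have := few_changes hi hab ha' hb'
      simp only [Set.mem_iUnion, Finset.mem_range]
      exact ⟨i, this, hi⟩
    · rcases h a b hab with h | h
      · exact absurd h ha'
      · exact absurd h hb'
  have h3 : IsClosed (⋃ i ∈ Finset.range b, KI i) :=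
    Set.Finite.isClosed_biUnion (Finset.finite_toSet _) fun i _ => isClosed_KI i
  have h4 : x ∈ ⋃ i ∈ Finset.range b, KI i := h3.closure_subset_iff.2 h2 h1
  simp only [Set.mem_iUnion] at h4
  obtain ⟨i, -, hi⟩ := h4
  exact hx (Or.inl ⟨i, hi⟩)

/-- The compact ultrametric space. -/
abbrev X : Type := K

noncomputable instance : IsUltrametricDist (ℕ → Bool) := seq_ultra

instance : CompactSpace X := isCompact_iff_compactSpace.1 isClosed_K.isCompact

theorem shift_mem {x : ℕ → Bool} (hx : x ∈ K) : (fun n => x (n + 1)) ∈ K := by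
  rcases hx with ⟨i, α, rfl⟩ | h
  · refine Or.inl ⟨i + 1, α, ?_⟩
    funext k
    change Y α (k + (i + 1)) = Y α (k + 1 + i)
    rw [show k + (i + 1) = k + 1 + i by omega]
  · exact Or.inr fun a b hab => h (a + 1) (b + 1) (by omega)

/-- The shift. -/
noncomputable def T (x : X) : X := ⟨fun n => x.1 (n + 1), shift_mem x.2⟩

theorem dist_le_one (x y : X) : dist x y ≤ 1 := seq_dist_le_one _ _

theorem dist_T (x y : X) : dist (T x) (T y) ≤ 2 * dist x y := seq_shift_le _ _

theorem iter_T (x : X) (n k : ℕ) : (T^[n] x : X).1 k = x.1 (k + n) := by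
  induction n generalizing k with
  | zero => rfl
  | succ n ih =>
    rw [Function.iterate_succ_apply']
    change (T^[n] x : X).1 (k + 1) = _
    rw [ih, show k + 1 + n = k + (n + 1) by omega]

/-- The set of times at which the orbits of the ends are close. -/
def close (x y : X) (δ : ℝ) (k : ℕ) : Prop := 2 * dist (T^[k] x) (T^[k] y) < δ

theorem not_close {x y : X} {δ : ℝ} (hδ : δ ≤ 2) {k : ℕ} (h : x.1 k ≠ y.1 k) :
    ¬ close x y δ k := by
  unfold close
  have : dist (T^[k] x) (T^[k] y) = 1 := by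
    apply seq_dist_eq_one
    rw [iter_T, iter_T, zero_add]
    exact h
  rw [this]
  linarith

theorem close_of_window {x y : X} {δ : ℝ} {m : ℕ} (hm : 2 * (1 / 2 : ℝ) ^ m < δ) {k : ℕ}
    (h : ∀ i < m, x.1 (k + i) = y.1 (k + i)) : close x y δ k := by
  unfold close
  have : dist (T^[k] x) (T^[k] y) ≤ (1 / 2) ^ m := by
    apply seq_dist_le_pow
    intro i hi
    rw [iter_T, iter_T, add_comm i k]
    exact h i hi
  linarith

theorem exists_window {δ : ℝ} (hδ : 0 < δ) : ∃ m : ℕ, 2 * (1 / 2 : ℝ) ^ m < δ := by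
  obtain ⟨m, hm⟩ := exists_pow_lt_of_lt_one (half_pos hδ) (by norm_num : (1 / 2 : ℝ) < 1)
  exact ⟨m, by linarith⟩

/-- `x` follows the code `α` up to a margin `s`. -/
def Code (x : ℕ → Bool) (α : ℕ → Bool) (s : ℕ) : Prop :=
  ∃ l0, ∀ l ≥ l0, ∀ k, 2 ^ l ≤ k → k + s < 2 ^ (l + 1) → x k = α (ix l)

theorem exists_code (x : X) : ∃ α s, Code x.1 α s := by
  rcases x.2 with ⟨i, α, hα⟩ | h
  · refine ⟨α, i, 0, fun l _ k h1 h2 => ?_⟩
    rw [← hα]
    change α (ix (Nat.log 2 (k + i))) = _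
    rw [log_eq (by omega) h2]
  · -- eventually constant
    have : ∃ N c, ∀ k ≥ N, x.1 k = c := by
      by_cases hc : ∃ a, x.1 a ≠ x.1 (a + 1)
      · obtain ⟨a, ha⟩ := hc
        refine ⟨a + 1, x.1 (a + 1), fun k hk => ?_⟩
        induction k, hk using Nat.le_induction with
        | base => rfl
        | succ k hk ih =>
          rw [← ih]
          rcases h a k hk with h' | h'
          · exact absurd h' ha
          · exact h'.symm
      · push Not at hc
        refine ⟨0, x.1 0, fun k _ => ?_⟩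
        induction k with
        | zero => rfl
        | succ k ih => rw [← hc k]; exact ih (Nat.zero_le _)
    obtain ⟨N, c, hN⟩ := this
    refine ⟨fun _ => c, 0, N, fun l hl k h1 _ => hN k ?_⟩
    have := @Nat.lt_two_pow_self l
    omega

/-! ### Densities -/

section Dens

variable (G : ℕ → Prop) [DecidablePred G]

theorem card_add (n : ℕ) : ((range (n + 1)).filter G).card +
    ((range (n + 1)).filter (fun k => ¬ G k)).card = n + 1 := by
  rw [Finset.card_filter_add_card_filter_not, card_range]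

theorem one_le_liminf {C c : ℕ}
    (h : ∀ n, ((range (n + 1)).filter (fun k => ¬ G k)).card ≤ C + c * Nat.log 2 n) :
    1 ≤ liminf (u G) atTop := by
  have hlim : Tendsto (fun n : ℕ => 1 - ((C : ℝ) + c * (Real.log n / Real.log 2)) / n) atTop
      (𝓝 1) := by
    have h1 : Tendsto (fun n : ℕ => (C : ℝ) / n) atTop (𝓝 0) :=
      tendsto_const_div_atTop_nhds_zero_nat _
    have h2 : Tendsto (fun n : ℕ => Real.log n / n) atTop (𝓝 0) := by
      have := (Real.isLittleO_log_id_atTop.tendsto_div_nhds_zero).comp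
        tendsto_natCast_atTop_atTop
      exact this
    have h3 := (h2.const_mul ((c : ℝ) / Real.log 2)).const_add 0
    have h4 := (h1.add (h2.const_mul ((c : ℝ) / Real.log 2))).const_sub 1
    rw [mul_zero, add_zero, sub_zero] at h4
    refine h4.congr fun n => ?_
    ring
  have hev : ∀ᶠ n : ℕ in atTop, 1 - ((C : ℝ) + c * (Real.log n / Real.log 2)) / n ≤ u G n := by
    filter_upwards [eventually_gt_atTop 0] with n hn
    have hn' : (0:ℝ) < n := by exact_mod_cast hn
    have h1 := card_add G n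
    have h2 := h n
    have h3 : (Nat.log 2 n : ℝ) ≤ Real.log n / Real.log 2 := by
      have := Real.natLog_le_logb n 2
      simpa [Real.logb] using this
    have h4 : (c:ℝ) * Nat.log 2 n ≤ c * (Real.log n / Real.log 2) :=
      mul_le_mul_of_nonneg_left h3 (by positivity)
    have h5 : (n : ℝ) + 1 ≤ (((range (n + 1)).filter G).card : ℝ) + (C + c * Nat.log 2 n) := by
      have : n + 1 ≤ ((range (n + 1)).filter G).card + (C + c * Nat.log 2 n) := by omega
      exact_mod_cast this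
    unfold u
    rw [sub_le_iff_le_add, ← add_div, le_div_iff₀ hn']
    linarith
  refine le_of_forall_lt fun b hb => ?_
  obtain ⟨b', hb1, hb2⟩ := exists_between hb
  refine lt_of_lt_of_le hb1 (le_liminf_u G ?_)
  filter_upwards [hev, hlim.eventually_const_lt hb2] with n h1 h2
  linarith

theorem limsup_lt_one {g : ℕ} (h : ∀ᶠ n in atTop,
    n ≤ 2 ^ g * ((range (n + 1)).filter (fun k => ¬ G k)).card) :
    limsup (u G) atTop < 1 := by
  refine lt_of_le_of_lt (b := 1 - 1 / 2 ^ (g + 1)) (limsup_u_le G ?_)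
    (by have : (0:ℝ) < 1 / 2 ^ (g + 1) := by positivity
        linarith)
  filter_upwards [h, eventually_ge_atTop (2 ^ (g + 1))] with n h1 h2
  have hn : 0 < n := lt_of_lt_of_le (by positivity) h2
  have hn' : (0:ℝ) < n := by exact_mod_cast hn
  unfold u
  rw [div_le_iff₀ hn']
  have h3 := card_add G n
  have h4 : (((range (n + 1)).filter G).card : ℝ) +
    (((range (n + 1)).filter (fun k => ¬ G k)).card : ℝ) = n + 1 := by exact_mod_cast h3
  have h5 : (n : ℝ) ≤ 2 ^ g * (((range (n + 1)).filter (fun k => ¬ G k)).card : ℝ) := by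
    exact_mod_cast h1
  have h6 : (2:ℝ) ^ (g + 1) ≤ n := by exact_mod_cast h2
  have h7 : (n:ℝ) / 2 ^ g ≤ (((range (n + 1)).filter (fun k => ¬ G k)).card : ℝ) := by
    rw [div_le_iff₀ (by positivity)]; linarith
  have h8 : (1:ℝ) ≤ n / 2 ^ (g + 1) := by
    rw [le_div_iff₀ (by positivity)]; linarith
  have h9 : (n:ℝ) / 2 ^ g = 2 * (n / 2 ^ (g + 1)) := by
    rw [pow_succ]; field_simp
  have h10 : (1 - 1 / 2 ^ (g + 1)) * (n:ℝ) = n - n / 2 ^ (g + 1) := by ring
  rw [h10]
  linarith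

theorem liminf_le_of_frequently (h : ∃ᶠ n in atTop,
    n + 1 ≤ 3 * ((range (n + 1)).filter (fun k => ¬ G k)).card) :
    liminf (u G) atTop ≤ 3 / 4 := by
  apply liminf_u_le
  refine (h.and_eventually (eventually_ge_atTop 8)).mono ?_
  rintro n ⟨h1, h2⟩
  have hn' : (0:ℝ) < n := by exact_mod_cast (by omega : 0 < n)
  unfold u
  rw [div_le_iff₀ hn']
  have h3 := card_add G n
  have h4 : 4 * ((range (n + 1)).filter G).card ≤ 3 * n := by omega
  have h5 : (4:ℝ) * (((range (n + 1)).filter G).card : ℝ) ≤ 3 * n := by exact_mod_cast h4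
  linarith

theorem half_gap {m : ℕ} (h : ∀ l, Even l → ∀ k, 2 ^ l ≤ k → k + m < 2 ^ (l + 1) → G k) :
    (1 + liminf (u G) atTop) / 2 ≤ limsup (u G) atTop := by
  refine le_of_forall_lt_imp_le_of_dense fun c hc => ?_
  obtain ⟨b', hb1, hb2⟩ := exists_between (show 2 * c - 1 < liminf (u G) atTop by linarith)
  apply le_limsup_u
  have hev : ∀ᶠ n in atTop, b' < u G n := eventually_lt_of_lt_liminf hb2 (bddBelow_u G)
  rw [frequently_atTop]
  intro N
  obtain ⟨N1, hN1⟩ := eventually_atTop.1 hev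
  obtain ⟨r, hr⟩ := exists_nat_gt ((m + 1 : ℝ) / (b' - (2 * c - 1)))
  set l := 2 * (N + N1 + r) with hl
  have hl2 : l < 2 ^ l := Nat.lt_two_pow_self
  have hu1 : b' < u G (2 ^ l) := hN1 _ (by omega)
  refine ⟨2 ^ (l + 1), by rw [pow_succ]; omega, ?_⟩
  have hcard : ((range (2 ^ l + 1)).filter G).card + (2 ^ l - (m + 1)) ≤
      ((range (2 ^ (l + 1) + 1)).filter G).card := by
    have hd : Disjoint ((range (2 ^ l + 1)).filter G) (Finset.Ico (2 ^ l + 1) (2 ^ (l + 1) - m)) := by
      rw [Finset.disjoint_left]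
      intro k hk hk'
      rw [Finset.mem_filter, Finset.mem_range] at hk
      rw [Finset.mem_Ico] at hk'
      omega
    have hsub : ((range (2 ^ l + 1)).filter G) ∪ (Finset.Ico (2 ^ l + 1) (2 ^ (l + 1) - m)) ⊆
        ((range (2 ^ (l + 1) + 1)).filter G) := by
      intro k hk
      rw [Finset.mem_union, Finset.mem_filter, Finset.mem_range, Finset.mem_Ico] at hk
      rw [Finset.mem_filter, Finset.mem_range, pow_succ]
      rw [pow_succ] at hk
      rcases hk with hk | hk
      · exact ⟨by omega, hk.2⟩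
      · refine ⟨by omega, h l ⟨N + N1 + r, by omega⟩ k (by omega) ?_⟩
        rw [pow_succ]
        omega
    have := Finset.card_le_card hsub
    rw [Finset.card_union_of_disjoint hd, Nat.card_Ico, pow_succ] at this
    rw [pow_succ]
    omega
  have h1 : b' * 2 ^ l < (((range (2 ^ l + 1)).filter G).card : ℝ) := by
    unfold u at hu1
    rw [lt_div_iff₀ (by positivity)] at hu1
    push_cast at hu1
    exact hu1
  have h2 : (((range (2 ^ l + 1)).filter G).card : ℝ) + (2 ^ l - (m + 1)) ≤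
      (((range (2 ^ (l + 1) + 1)).filter G).card : ℝ) := by
    have e1 : ((2 ^ l : ℕ) : ℝ) - ((m + 1 : ℕ) : ℝ) ≤ ((2 ^ l - (m + 1) : ℕ) : ℝ) := by
      rw [sub_le_iff_le_add]
      have : 2 ^ l ≤ (2 ^ l - (m + 1)) + (m + 1) := by omega
      exact_mod_cast this
    have e2 : (((range (2 ^ l + 1)).filter G).card : ℝ) + ((2 ^ l - (m + 1) : ℕ) : ℝ) ≤
      (((range (2 ^ (l + 1) + 1)).filter G).card : ℝ) := by exact_mod_cast hcard
    push_cast at e1
    linarith
  unfold u
  rw [le_div_iff₀ (by positivity)]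
  push_cast
  rw [pow_succ]
  have hpos : 0 < b' - (2 * c - 1) := by linarith
  rw [div_lt_iff₀ hpos] at hr
  have h3 : (r : ℝ) ≤ 2 ^ l := by
    have : r ≤ 2 ^ l := by omega
    exact_mod_cast this
  have h4 : (r : ℝ) * (b' - (2 * c - 1)) ≤ 2 ^ l * (b' - (2 * c - 1)) :=
    mul_le_mul_of_nonneg_right h3 hpos.le
  nlinarith

end Dens

noncomputable instance (x y : X) (δ : ℝ) : DecidablePred (close x y δ) :=
  fun k => Real.decidableLT (2 * dist (T^[k] x) (T^[k] y)) δ

theorem same_code {x y : X} {α : ℕ → Bool} {s s' : ℕ} (hx : Code x.1 α s) (hy : Code y.1 α s')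
    {δ : ℝ} (hδ : 0 < δ) : 1 ≤ liminf (u (close x y δ)) atTop := by
  obtain ⟨m, hm⟩ := exists_window hδ
  obtain ⟨l1, h1⟩ := hx
  obtain ⟨l2, h2⟩ := hy
  set c := s + s' + m with hc
  set l0 := l1 + l2 with hl0
  have hclose : ∀ l ≥ l0, ∀ k, 2 ^ l ≤ k → k + c < 2 ^ (l + 1) → close x y δ k := by
    intro l hl k hk1 hk2
    apply close_of_window hm
    intro i hi
    rw [h1 l (by omega) (k + i) (by omega) (by omega),
      h2 l (by omega) (k + i) (by omega) (by omega)]
  refine one_le_liminf _ (C := 2 ^ l0 + c) (c := c) fun n => ?_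
  have hsub : (range (n + 1)).filter (fun k => ¬ close x y δ k) ⊆
      range (2 ^ l0) ∪ (range (Nat.log 2 n + 1)).biUnion
        (fun l => Finset.Ico (2 ^ (l + 1) - c) (2 ^ (l + 1))) := by
    intro k hk
    rw [Finset.mem_filter, Finset.mem_range] at hk
    rw [Finset.mem_union, Finset.mem_range, Finset.mem_biUnion]
    by_cases hk0 : k < 2 ^ l0
    · exact Or.inl hk0
    · right
      push Not at hk0
      have hkpos : k ≠ 0 := by
        have : 0 < 2 ^ l0 := by positivity
        omega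
      refine ⟨Nat.log 2 k, ?_, ?_⟩
      · rw [Finset.mem_range]
        exact Nat.lt_succ_of_le (Nat.log_mono_right (by omega))
      · rw [Finset.mem_Ico]
        have e1 : 2 ^ Nat.log 2 k ≤ k := Nat.pow_log_le_self 2 hkpos
        have e2 : k < 2 ^ (Nat.log 2 k + 1) := Nat.lt_pow_succ_log_self (by norm_num) _
        refine ⟨?_, e2⟩
        by_contra hcon
        push Not at hcon
        exact hk.2 (hclose _ (Nat.le_log_of_pow_le (by norm_num) hk0) k e1 (by omega))
  refine (Finset.card_le_card hsub).trans ((Finset.card_union_le _ _).trans ?_)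
  rw [Finset.card_range]
  have h3 : ((range (Nat.log 2 n + 1)).biUnion
      (fun l => Finset.Ico (2 ^ (l + 1) - c) (2 ^ (l + 1)))).card ≤ (Nat.log 2 n + 1) * c := by
    refine Finset.card_biUnion_le.trans ?_
    refine (Finset.sum_le_card_nsmul _ _ c ?_).trans ?_
    · intro l _
      rw [Nat.card_Ico]
      omega
    · simp
  have h4 : (Nat.log 2 n + 1) * c = c * Nat.log 2 n + c := by ring
  omega

theorem diff_code {x y : X} {α β : ℕ → Bool} {s s' : ℕ} (hx : Code x.1 α s) (hy : Code y.1 β s')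
    (hne : α ≠ β) {δ : ℝ} (hδ : δ ≤ 2) : limsup (u (close x y δ)) atTop < 1 := by
  obtain ⟨i, hi⟩ := Function.ne_iff.1 hne
  obtain ⟨g, hg⟩ := syndetic i
  obtain ⟨l1, h1⟩ := hx
  obtain ⟨l2, h2⟩ := hy
  refine limsup_lt_one _ (g := g + 2) ?_
  filter_upwards [eventually_ge_atTop (2 ^ (l1 + l2 + s + s' + 1 + g))] with n hn
  have hn0 : n ≠ 0 := by
    have : 0 < 2 ^ (l1 + l2 + s + s' + 1 + g) := by positivity
    omega
  have hL : l1 + l2 + s + s' + 1 + g ≤ Nat.log 2 n := Nat.le_log_of_pow_le (by norm_num) hn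
  obtain ⟨l, hl1, hl2, hl3⟩ := hg (Nat.log 2 n - g)
  have e1 : 2 ^ Nat.log 2 n ≤ n := Nat.pow_log_le_self 2 hn0
  have e2 : n < 2 ^ (Nat.log 2 n + 1) := Nat.lt_pow_succ_log_self (by norm_num) _
  have e3 : 2 ^ (l + 1) ≤ 2 ^ Nat.log 2 n := Nat.pow_le_pow_right (by norm_num) (by omega)
  obtain ⟨l', hl'⟩ : ∃ l', l = l' + 1 := ⟨l - 1, by omega⟩
  have e4 : s + s' < 2 ^ l' := lt_of_lt_of_le (Nat.lt_two_pow_self)
    (Nat.pow_le_pow_right (by norm_num) (by omega))
  have e5 : 2 ^ l = 2 * 2 ^ l' := by rw [hl', pow_succ]; ring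
  have e6 : 2 ^ (l + 1) = 4 * 2 ^ l' := by rw [hl', pow_succ, pow_succ]; ring
  have hsub : Finset.Ico (2 ^ l) (2 ^ (l + 1) - (s + s')) ⊆
      (range (n + 1)).filter (fun k => ¬ close x y δ k) := by
    intro k hk
    rw [Finset.mem_Ico] at hk
    rw [Finset.mem_filter, Finset.mem_range]
    refine ⟨by omega, not_close hδ ?_⟩
    rw [h1 l (by omega) k hk.1 (by omega), h2 l (by omega) k hk.1 (by omega), hl3]
    exact hi
  have e7 := Finset.card_le_card hsub
  rw [Nat.card_Ico] at e7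
  have e8 : 2 ^ l' ≤ ((range (n + 1)).filter (fun k => ¬ close x y δ k)).card := by omega
  have e9 : 2 ^ (Nat.log 2 n + 1) ≤ 2 ^ (g + 2) * 2 ^ l' := by
    rw [← pow_add]
    exact Nat.pow_le_pow_right (by norm_num) (by omega)
  exact e2.le.trans (e9.trans (Nat.mul_le_mul_left _ e8))

/-- The points with code `α`. -/
def pt (α : ℕ → Bool) : X := ⟨Y α, Or.inl ⟨0, α, rfl⟩⟩

instance : Nonempty X := ⟨pt fun _ => true⟩

theorem Y_block (α : ℕ → Bool) {l k : ℕ} (h1 : 2 ^ l ≤ k) (h2 : k < 2 ^ (l + 1)) :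
    Y α k = α (ix l) := by
  unfold Y
  rw [log_eq h1 h2]

theorem dens_low {α β : ℕ → Bool} (hne : α ≠ β) {δ : ℝ} (hδ : δ ≤ 2) :
    liminf (u (close (pt α) (pt β) δ)) atTop ≤ 3 / 4 := by
  obtain ⟨i, hi⟩ := Function.ne_iff.1 hne
  obtain ⟨g, hg⟩ := syndetic i
  apply liminf_le_of_frequently
  rw [frequently_atTop]
  intro N
  obtain ⟨l, hl1, hl2, hl3⟩ := hg (N + 2)
  have e0 : l < 2 ^ l := Nat.lt_two_pow_self
  refine ⟨2 ^ (l + 1), by rw [pow_succ]; omega, ?_⟩
  have hsub : Finset.Ico (2 ^ l) (2 ^ (l + 1)) ⊆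
      (range (2 ^ (l + 1) + 1)).filter (fun k => ¬ close (pt α) (pt β) δ k) := by
    intro k hk
    rw [Finset.mem_Ico] at hk
    rw [Finset.mem_filter, Finset.mem_range]
    refine ⟨by omega, not_close hδ ?_⟩
    change Y α k ≠ Y β k
    rw [Y_block α hk.1 hk.2, Y_block β hk.1 hk.2, hl3]
    exact hi
  have e1 := Finset.card_le_card hsub
  rw [Nat.card_Ico, pow_succ] at e1
  rw [pow_succ]
  omega

theorem dens_gap {α β : ℕ → Bool} (h0 : α 0 = β 0) {δ : ℝ} (hδ : 0 < δ) :
    (1 + liminf (u (close (pt α) (pt β) δ)) atTop) / 2 ≤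
      limsup (u (close (pt α) (pt β) δ)) atTop := by
  obtain ⟨m, hm⟩ := exists_window hδ
  refine half_gap (close (pt α) (pt β) δ) (m := m) ?_
  intro l hl k hk1 hk2
  apply close_of_window hm
  intro i hi
  change Y α (k + i) = Y β (k + i)
  rw [Y_block α (l := l) (by omega) (by omega), Y_block β (l := l) (by omega) (by omega),
    ix_even hl, h0]

end Pool.Agent.R470.DC2
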