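import Pool.Agent.R470.DendriteTool

/-!
# The extension of an ultrametric Lipschitz map to the dendrite
-/

open Set Filter Topology

namespace Pool.Agent.R470.Dendrite

variable {X : Type} [MetricSpace X] [IsUltrametricDist X]

/-- The extension of `T` to the dendrite. -/
noncomputable def ext (T : X → X) (w : Dend X) : Dend X :=
  P (T (exists_P w).choose) (min 1 (2 * (exists_P w).choose_spec.choose))

theorem dist_ext_aux {T : X → X} (h1 : ∀ x y : X, dist x y ≤ 1)
    (hT : ∀ x y, dist (T x) (T y) ≤ 2 * dist x y) {x y : X} {u v : ℝ} (hu0 : 0 ≤ u) (hu1 : u ≤ 1)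
    (hv0 : 0 ≤ v) (hv1 : v ≤ 1) :
    dist (P (T x) (min 1 (2 * u))) (P (T y) (min 1 (2 * v))) ≤ 2 * dist (P x u) (P y v) := by
  rw [dist_P hu0 hu1 hv0 hv1, dist_P (le_min zero_le_one (by linarith)) (min_le_left _ _)
    (le_min zero_le_one (by linarith)) (min_le_left _ _)]
  have h2 := hT x y
  have h3 := h1 (T x) (T y)
  have h4 := h1 x y
  have h5 : (0:ℝ) ≤ dist x y := dist_nonneg
  rcases max_cases (max u v) (dist x y) with a2 | a2 <;>
  rcases max_cases u v with a3 | a3 <;>
  rcases max_cases (max (min 1 (2 * u)) (min 1 (2 * v))) (dist (T x) (T y)) with a4 | a4 <;>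
  rcases max_cases (min 1 (2 * u)) (min 1 (2 * v)) with a5 | a5 <;>
  rcases min_cases 1 (2 * u) with a6 | a6 <;>
  rcases min_cases 1 (2 * v) with a7 | a7 <;> linarith

theorem ext_P {T : X → X} (h1 : ∀ x y : X, dist x y ≤ 1)
    (hT : ∀ x y, dist (T x) (T y) ≤ 2 * dist x y) (x : X) {r : ℝ} (hr0 : 0 ≤ r) (hr1 : r ≤ 1) :
    ext T (P x r) = P (T x) (min 1 (2 * r)) := by
  have hs := (exists_P (P x r)).choose_spec.choose_spec
  have := dist_ext_aux h1 hT hs.1 hs.2.1 hr0 hr1 (x := (exists_P (P x r)).choose) (y := x)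
  rw [← hs.2.2, dist_self, mul_zero] at this
  exact dist_le_zero.1 this

theorem dist_ext {T : X → X} (h1 : ∀ x y : X, dist x y ≤ 1)
    (hT : ∀ x y, dist (T x) (T y) ≤ 2 * dist x y) (p q : Dend X) :
    dist (ext T p) (ext T q) ≤ 2 * dist p q := by
  obtain ⟨x, r, hr0, hr1, rfl⟩ := exists_P p
  obtain ⟨x', r', hr0', hr1', rfl⟩ := exists_P q
  rw [ext_P h1 hT x hr0 hr1, ext_P h1 hT x' hr0' hr1']
  exact dist_ext_aux h1 hT hr0 hr1 hr0' hr1'

theorem continuous_ext {T : X → X} (h1 : ∀ x y : X, dist x y ≤ 1)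
    (hT : ∀ x y, dist (T x) (T y) ≤ 2 * dist x y) : Continuous (ext T) := by
  apply LipschitzWith.continuous (K := 2)
  apply LipschitzWith.of_dist_le_mul
  intro a b
  exact_mod_cast dist_ext h1 hT a b

theorem iter_ext {T : X → X} (h1 : ∀ x y : X, dist x y ≤ 1)
    (hT : ∀ x y, dist (T x) (T y) ≤ 2 * dist x y) (x : X) {r : ℝ} (hr0 : 0 ≤ r) (hr1 : r ≤ 1)
    (n : ℕ) : (ext T)^[n] (P x r) = P (T^[n] x) (min 1 (2 ^ n * r)) := by
  induction n with
  | zero => simp [hr1]
  | succ n ih =>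
    rw [Function.iterate_succ_apply', ih, ext_P h1 hT _ (le_min zero_le_one (by positivity))
      (min_le_left _ _), ← Function.iterate_succ_apply' T]
    congr 1
    have h2 : (2:ℝ) ^ (n + 1) * r = 2 * (2 ^ n * r) := by ring
    rw [h2]
    have h3 : (0:ℝ) ≤ 2 ^ n * r := by positivity
    rcases min_cases 1 (2 ^ n * r) with h | h
    · rw [h.1, min_eq_left (by norm_num), min_eq_left (by linarith)]
    · rw [h.1]

/-- The ends of the dendrite. -/
noncomputable def E (x : X) : Dend X := P x 0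

theorem iter_E {T : X → X} (h1 : ∀ x y : X, dist x y ≤ 1)
    (hT : ∀ x y, dist (T x) (T y) ≤ 2 * dist x y) (x : X) (n : ℕ) :
    (ext T)^[n] (E x) = E (T^[n] x) := by
  unfold E
  rw [iter_ext h1 hT x le_rfl zero_le_one]
  simp

theorem dist_E (x y : X) : dist (E x) (E y) = 2 * dist x y := by
  unfold E
  rw [dist_P le_rfl zero_le_one le_rfl zero_le_one]
  simp

theorem dist_iter_E {T : X → X} (h1 : ∀ x y : X, dist x y ≤ 1)
    (hT : ∀ x y, dist (T x) (T y) ≤ 2 * dist x y) (x y : X) (n : ℕ) :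
    dist ((ext T)^[n] (E x)) ((ext T)^[n] (E y)) = 2 * dist (T^[n] x) (T^[n] y) := by
  rw [iter_E h1 hT, iter_E h1 hT, dist_E]

theorem iter_root {T : X → X} (h1 : ∀ x y : X, dist x y ≤ 1)
    (hT : ∀ x y, dist (T x) (T y) ≤ 2 * dist x y) (x : X) {r : ℝ} (hr0 : 0 < r) (hr1 : r ≤ 1)
    (o : X) : ∀ᶠ n in atTop, (ext T)^[n] (P x r) = P o 1 := by
  have ht : Tendsto (fun n : ℕ => (2:ℝ) ^ n * r) atTop atTop :=
    (tendsto_pow_atTop_atTop_of_one_lt (by norm_num)).atTop_mul_const hr0
  filter_upwards [ht.eventually_ge_atTop 1] with n hn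
  rw [iter_ext h1 hT x hr0.le hr1, min_eq_left hn]
  exact P_eq zero_le_one le_rfl (h1 _ _)

theorem pair_cases {T : X → X} (h1 : ∀ x y : X, dist x y ≤ 1)
    (hT : ∀ x y, dist (T x) (T y) ≤ 2 * dist x y) (p q : Dend X) :
    (∃ x y, p = E x ∧ q = E y) ∨
    (∀ᶠ n in atTop, dist ((ext T)^[n] p) ((ext T)^[n] q) = 1) ∨
    (∀ᶠ n in atTop, dist ((ext T)^[n] p) ((ext T)^[n] q) = 0) := by
  obtain ⟨x, r, hr0, hr1, rfl⟩ := exists_P p
  obtain ⟨x', r', hr0', hr1', rfl⟩ := exists_P q
  have hd : ∀ a b : X, dist (P a 0) (P b 1) = 1 := by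
    intro a b
    rw [dist_P le_rfl zero_le_one zero_le_one le_rfl, max_eq_right zero_le_one,
      max_eq_left (h1 _ _)]
    norm_num
  rcases hr0.eq_or_lt with h | h
  · rcases hr0'.eq_or_lt with h' | h'
    · left
      exact ⟨x, x', by rw [← h]; rfl, by rw [← h']; rfl⟩
    · right; left
      filter_upwards [iter_root h1 hT x' h' hr1' x'] with n hn
      have := iter_E h1 hT x n
      unfold E at this
      rw [hn, ← h, this, hd]
  · rcases hr0'.eq_or_lt with h' | h'
    · right; left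
      filter_upwards [iter_root h1 hT x h hr1 x] with n hn
      have := iter_E h1 hT x' n
      unfold E at this
      rw [hn, ← h', this, dist_comm, hd]
    · right; right
      filter_upwards [iter_root h1 hT x h hr1 x, iter_root h1 hT x' h' hr1' x] with n hn hn'
      rw [hn, hn', dist_self]

/-! ### Elementary facts on lower and upper densities -/

section Density

variable (G : ℕ → Prop) [DecidablePred G]

/-- The normalised counting function of the problem statement. -/
noncomputable def u (n : ℕ) : ℝ := (((Finset.range (n + 1)).filter G).card : ℝ) / n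

theorem u_nonneg (n : ℕ) : 0 ≤ u G n := by unfold u; positivity

theorem u_le (n : ℕ) : u G n ≤ 2 := by
  unfold u
  rcases Nat.eq_zero_or_pos n with h | h
  · subst h; simp
  · rw [div_le_iff₀ (by exact_mod_cast h)]
    have : ((Finset.range (n + 1)).filter G).card ≤ n + 1 := by
      simpa using Finset.card_filter_le (Finset.range (n+1)) G
    have h2 : (((Finset.range (n + 1)).filter G).card : ℝ) ≤ n + 1 := by exact_mod_cast this
    have h3 : (1:ℝ) ≤ n := by exact_mod_cast h
    linarith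

theorem bddAbove_u : IsBoundedUnder (· ≤ ·) atTop (u G) := isBoundedUnder_of ⟨2, u_le G⟩

theorem bddBelow_u : IsBoundedUnder (· ≥ ·) atTop (u G) := isBoundedUnder_of ⟨0, u_nonneg G⟩

theorem liminf_u_le {a : ℝ} (h : ∃ᶠ n in atTop, u G n ≤ a) : liminf (u G) atTop ≤ a :=
  liminf_le_of_frequently_le h (bddBelow_u G)

theorem le_limsup_u {a : ℝ} (h : ∃ᶠ n in atTop, a ≤ u G n) : a ≤ limsup (u G) atTop :=
  le_limsup_of_frequently_le h (bddAbove_u G)

theorem limsup_u_le {a : ℝ} (h : ∀ᶠ n in atTop, u G n ≤ a) : limsup (u G) atTop ≤ a :=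
  limsup_le_of_le (bddBelow_u G).isCoboundedUnder_le h

theorem le_liminf_u {a : ℝ} (h : ∀ᶠ n in atTop, a ≤ u G n) : a ≤ liminf (u G) atTop :=
  le_liminf_of_le (bddAbove_u G).isCoboundedUnder_ge h

end Density

end Pool.Agent.R470.Dendrite
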