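import Pool.Agent.R470.DendriteMap

/-!
# Sequence spaces as ultrametric spaces
-/

open Set Filter Topology

namespace Pool.Agent.R470.Dendrite

attribute [local instance] PiNat.metricSpace

section Seq

variable {A : Type} [TopologicalSpace A] [DiscreteTopology A]

theorem seq_dist_le_one (x y : ℕ → A) : dist x y ≤ 1 := PiNat.dist_le_one x y

theorem seq_dist_eq_one {x y : ℕ → A} (h : x 0 ≠ y 0) : dist x y = 1 := by
  have hne : x ≠ y := fun he => h (by rw [he])
  rw [PiNat.dist_eq_of_ne hne]
  have : PiNat.firstDiff x y = 0 := by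
    by_contra hcon
    exact h (PiNat.apply_eq_of_lt_firstDiff (Nat.pos_of_ne_zero hcon))
  rw [this, pow_zero]

theorem seq_dist_le_pow {x y : ℕ → A} {n : ℕ} (h : ∀ i < n, x i = y i) :
    dist x y ≤ (1 / 2) ^ n :=
  PiNat.mem_cylinder_iff_dist_le.1 (PiNat.mem_cylinder_iff.2 h)

theorem seq_shift_le (x y : ℕ → A) :
    dist (fun n => x (n + 1)) (fun n => y (n + 1)) ≤ 2 * dist x y := by
  by_cases h : (fun n => x (n + 1)) = (fun n => y (n + 1))
  · rw [h, dist_self]; positivity
  · have hne : x ≠ y := fun he => h (by rw [he])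
    rw [PiNat.dist_eq_of_ne h, PiNat.dist_eq_of_ne hne]
    have h1 : PiNat.firstDiff x y ≤
        PiNat.firstDiff (fun n => x (n + 1)) (fun n => y (n + 1)) + 1 := by
      by_contra hcon
      push Not at hcon
      exact PiNat.apply_firstDiff_ne h (PiNat.apply_eq_of_lt_firstDiff hcon)
    have h2 : ((1:ℝ) / 2) ^ (PiNat.firstDiff (fun n => x (n + 1)) (fun n => y (n + 1)) + 1) ≤
        (1 / 2) ^ (PiNat.firstDiff x y) :=
      pow_le_pow_of_le_one (by norm_num) (by norm_num) h1
    rw [pow_succ] at h2
    linarith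

theorem seq_ultra : IsUltrametricDist (ℕ → A) := ⟨PiNat.dist_triangle_nonarch⟩

end Seq

theorem uncountable_set_nat : Uncountable (Set ℕ) := by
  rw [← not_countable_iff]
  intro h
  obtain ⟨f, hf⟩ := h.exists_injective_nat
  exact Function.cantor_injective f hf

theorem prod_ultra {A B : Type} [MetricSpace A] [MetricSpace B] (hA : IsUltrametricDist A)
    (hB : IsUltrametricDist B) : IsUltrametricDist (A × B) := by
  refine ⟨fun x y z => ?_⟩
  rw [Prod.dist_eq, Prod.dist_eq, Prod.dist_eq]
  refine max_le ?_ ?_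
  · refine (dist_triangle_max x.1 y.1 z.1).trans (max_le_max (le_max_left _ _) (le_max_left _ _))
  · refine (dist_triangle_max x.2 y.2 z.2).trans (max_le_max (le_max_right _ _) (le_max_right _ _))

end Pool.Agent.R470.Dendrite
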