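import Mathlib

/-!
# Lipschitz self-maps of compact ultrametric spaces extend to dendrites

For a nonempty compact ultrametric space `X` of diameter at most `1` the quotient of
`X × [0,1]` by the pseudometric
`((x,r),(x',r')) ↦ 2 max (r, r', dist x x') - r - r'` is a dendrite, and every map
`T : X → X` with `dist (T x) (T y) ≤ 2 dist x y` extends to the dendrite
(`X` is embedded as the set of ends `(x,0)`).
-/

open Set Filter Topology

namespace Pool.Agent.R470.Dendrite

/-- A dendrite: a locally connected continuum (compact connected metric space) which contains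
no subset homeomorphic to a circle. -/
structure IsDendrite (D : Type) [MetricSpace D] : Prop where
  compact : CompactSpace D
  connected : ConnectedSpace D
  locallyConnected : LocallyConnectedSpace D
  noCircle : ∀ C : Set D, IsEmpty (C ≃ₜ Circle)

/-- The points of `X × [0,1]`. -/
structure Pre (X : Type) where
  pt : X
  ht : ℝ
  ht0 : 0 ≤ ht
  ht1 : ht ≤ 1

section Tool

variable {X : Type} [MetricSpace X] [IsUltrametricDist X]

noncomputable instance : PseudoMetricSpace (Pre X) where
  dist p q := 2 * max (max p.ht q.ht) (dist p.pt q.pt) - p.ht - q.ht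
  dist_self p := by
    have := p.ht0
    simp [max_eq_left this]
    ring
  dist_comm p q := by
    rw [max_comm p.ht, dist_comm]; ring
  dist_triangle p q s := by
    have h1 : dist p.pt s.pt ≤ max (dist p.pt q.pt) (dist q.pt s.pt) := dist_triangle_max _ _ _
    rcases le_max_iff.1 h1 with h | h
    · rcases max_cases (max p.ht s.ht) (dist p.pt s.pt) with h2 | h2 <;>
      rcases max_cases p.ht s.ht with h3 | h3 <;>
      rcases max_cases (max p.ht q.ht) (dist p.pt q.pt) with h4 | h4 <;>
      rcases max_cases p.ht q.ht with h5 | h5 <;>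
      rcases max_cases (max q.ht s.ht) (dist q.pt s.pt) with h6 | h6 <;>
      rcases max_cases q.ht s.ht with h7 | h7 <;> linarith
    · rcases max_cases (max p.ht s.ht) (dist p.pt s.pt) with h2 | h2 <;>
      rcases max_cases p.ht s.ht with h3 | h3 <;>
      rcases max_cases (max p.ht q.ht) (dist p.pt q.pt) with h4 | h4 <;>
      rcases max_cases p.ht q.ht with h5 | h5 <;>
      rcases max_cases (max q.ht s.ht) (dist q.pt s.pt) with h6 | h6 <;>
      rcases max_cases q.ht s.ht with h7 | h7 <;> linarith

/-- The dendrite. -/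
def Dend (X : Type) [MetricSpace X] [IsUltrametricDist X] : Type := SeparationQuotient (Pre X)

noncomputable instance : MetricSpace (Dend X) :=
  inferInstanceAs (MetricSpace (SeparationQuotient (Pre X)))

/-- The point with co-height `u` above the end `x` (`u` is clamped to `[0,1]`). -/
noncomputable def P (x : X) (u : ℝ) : Dend X :=
  SeparationQuotient.mk ⟨x, max 0 (min 1 u), le_max_left _ _, max_le zero_le_one (min_le_left _ _)⟩

theorem exists_P (w : Dend X) : ∃ x : X, ∃ r : ℝ, 0 ≤ r ∧ r ≤ 1 ∧ w = P x r := by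
  obtain ⟨p, rfl⟩ := SeparationQuotient.surjective_mk (X := Pre X) w
  refine ⟨p.pt, p.ht, p.ht0, p.ht1, ?_⟩
  unfold P
  congr 1
  cases p with
  | mk a b c d => simp [c, d]

theorem dist_P {x y : X} {u v : ℝ} (hu0 : 0 ≤ u) (hu1 : u ≤ 1) (hv0 : 0 ≤ v) (hv1 : v ≤ 1) :
    dist (P x u) (P y v) = 2 * max (max u v) (dist x y) - u - v := by
  unfold P
  have := SeparationQuotient.dist_mk
    (⟨x, max 0 (min 1 u), le_max_left _ _, max_le zero_le_one (min_le_left _ _)⟩ : Pre X)
    (⟨y, max 0 (min 1 v), le_max_left _ _, max_le zero_le_one (min_le_left _ _)⟩ : Pre X)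
  refine this.trans ?_
  change 2 * max (max (max 0 (min 1 u)) (max 0 (min 1 v))) (dist x y) - max 0 (min 1 u) -
    max 0 (min 1 v) = _
  rw [min_eq_right hu1, min_eq_right hv1, max_eq_right hu0, max_eq_right hv0]


theorem P_eq {x y : X} {u : ℝ} (hu0 : 0 ≤ u) (hu1 : u ≤ 1) (h : dist x y ≤ u) :
    P x u = P y u := by
  rw [← dist_eq_zero, dist_P hu0 hu1 hu0 hu1, max_self, max_eq_left h]
  ring

theorem dist_P_le {x y : X} {u v : ℝ} (hu0 : 0 ≤ u) (hu1 : u ≤ 1) (hv0 : 0 ≤ v) (hv1 : v ≤ 1) :
    dist (P x u) (P y v) ≤ |u - v| + 2 * dist x y := by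
  rw [dist_P hu0 hu1 hv0 hv1]
  have h0 : 0 ≤ dist x y := dist_nonneg
  rcases max_cases (max u v) (dist x y) with h2 | h2 <;>
  rcases max_cases u v with h3 | h3 <;> rcases abs_cases (u - v) with h4 | h4 <;> linarith

theorem continuous_P : Continuous (fun q : X × Icc (0:ℝ) 1 => P q.1 (q.2:ℝ)) := by
  apply LipschitzWith.continuous (K := 3)
  apply LipschitzWith.of_dist_le_mul
  intro a b
  refine (dist_P_le a.2.2.1 a.2.2.2 b.2.2.1 b.2.2.2).trans ?_
  have h1 : dist a.1 b.1 ≤ dist a b := by rw [Prod.dist_eq]; exact le_max_left _ _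
  have h2 : dist a.2 b.2 ≤ dist a b := by rw [Prod.dist_eq]; exact le_max_right _ _
  rw [Subtype.dist_eq, Real.dist_eq] at h2
  push_cast
  linarith

theorem compactSpace_dend [CompactSpace X] : CompactSpace (Dend X) := by
  have hs : Function.Surjective (fun q : X × Icc (0:ℝ) 1 => P q.1 (q.2:ℝ)) := by
    intro w
    obtain ⟨x, r, h0, h1, rfl⟩ := exists_P w
    exact ⟨(x, ⟨r, h0, h1⟩), rfl⟩
  exact hs.compactSpace continuous_P

theorem seg_preconnected (x : X) {a b : ℝ} (ha : 0 ≤ a) (hb : b ≤ 1) :
    IsPreconnected (P x '' Icc a b) := by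
  have hc : ContinuousOn (P x) (Icc a b) := by
    have : LipschitzOnWith 1 (P x) (Icc a b) := by
      apply LipschitzOnWith.of_dist_le_mul
      intro u hu v hv
      refine (dist_P_le (ha.trans hu.1) (hu.2.trans hb) (ha.trans hv.1) (hv.2.trans hb)).trans ?_
      rw [dist_self, Real.dist_eq]
      simp
    exact this.continuousOn
  exact isPreconnected_Icc.image _ hc

theorem ball_preconnected (h1 : ∀ x y : X, dist x y ≤ 1) (p : Dend X) (ε : ℝ) :
    IsPreconnected (Metric.ball p ε) := by
  apply isPreconnected_of_forall p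
  obtain ⟨x, r, hr0, hr1, rfl⟩ := exists_P p
  intro q hq
  obtain ⟨x', r', hr0', hr1', rfl⟩ := exists_P q
  rw [Metric.mem_ball, dist_P hr0' hr1' hr0 hr1] at hq
  set m := max (max r' r) (dist x' x) with hm
  have hm0 : r' ≤ m := (le_max_left _ _).trans (le_max_left _ _)
  have hm1 : r ≤ m := (le_max_right _ _).trans (le_max_left _ _)
  have hm2 : dist x' x ≤ m := le_max_right _ _
  have hm3 : m ≤ 1 := max_le (max_le hr1' hr1) (h1 _ _)
  refine ⟨P x' '' Icc r' m ∪ P x '' Icc r m, ?_, ?_, ?_, ?_⟩
  · rintro w (⟨u, hu, rfl⟩ | ⟨u, hu, rfl⟩)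
    · rw [Metric.mem_ball, dist_P (hr0'.trans hu.1) (hu.2.trans hm3) hr0 hr1]
      have : max (max u r) (dist x' x) ≤ m := max_le (max_le hu.2 hm1) hm2
      have := hu.1
      linarith
    · rw [Metric.mem_ball, dist_P (hr0.trans hu.1) (hu.2.trans hm3) hr0 hr1]
      have : max (max u r) (dist x x) ≤ u := by
        rw [dist_self]
        exact max_le (max_le le_rfl hu.1) (hr0.trans hu.1)
      have := hu.2
      linarith
  · exact Or.inr ⟨r, ⟨le_rfl, hm1⟩, rfl⟩
  · exact Or.inl ⟨r', ⟨le_rfl, hm0⟩, rfl⟩
  · refine IsPreconnected.union (P x m) ?_ ?_ (seg_preconnected x' hr0' hm3)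
      (seg_preconnected x hr0 hm3)
    · exact ⟨m, ⟨hm0, le_rfl⟩, P_eq (hr0.trans hm1) hm3 hm2⟩
    · exact ⟨m, ⟨hm1, le_rfl⟩, rfl⟩

theorem circle_compl (z : Circle) : IsPreconnected ({z}ᶜ : Set Circle) := by
  obtain ⟨θ, rfl⟩ := Circle.exp_surjective z
  have : ({Circle.exp θ}ᶜ : Set Circle) = Circle.exp '' Ioo θ (θ + 2 * Real.pi) := by
    ext y
    constructor
    · intro hy
      obtain ⟨τ, rfl⟩ := Circle.exp_surjective y
      obtain ⟨m, hm, -⟩ := existsUnique_add_zsmul_mem_Ico Real.two_pi_pos τ θ
      have he : Circle.exp (τ + m • (2 * Real.pi)) = Circle.exp τ := by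
        rw [Circle.exp_eq_exp]; exact ⟨m, by simp⟩
      refine ⟨τ + m • (2 * Real.pi), ⟨lt_of_le_of_ne hm.1 ?_, hm.2⟩, he⟩
      intro h
      apply hy
      rw [← he, ← h]
      rfl
    · rintro ⟨τ, hτ, rfl⟩ h
      have h' : Circle.exp τ = Circle.exp θ := h
      rw [Circle.exp_eq_exp] at h'
      obtain ⟨m, hm⟩ := h'
      have hp := Real.two_pi_pos
      have h1 : (0:ℝ) < m := by
        by_contra hcon
        push Not at hcon
        have := hτ.1
        nlinarith
      have h2 : (m:ℝ) < 1 := by
        by_contra hcon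
        push Not at hcon
        have := hτ.2
        nlinarith
      have h3 : (0:ℤ) < m := by exact_mod_cast h1
      have h4 : m < (1:ℤ) := by exact_mod_cast h2
      omega
  rw [this]
  exact isPreconnected_Ioo.image _ Circle.exp.continuous.continuousOn

theorem noCircle (h1 : ∀ x y : X, dist x y ≤ 1) (C : Set (Dend X)) : IsEmpty (C ≃ₜ Circle) := by
  refine ⟨fun φ => ?_⟩
  -- removing a point keeps `C` preconnected
  have hrem : ∀ w : Dend X, IsPreconnected (C \ {w}) := by
    intro w
    have hcont : Continuous (fun z : Circle => ((φ.symm z : C) : Dend X)) :=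
      continuous_subtype_val.comp φ.symm.continuous
    by_cases hw : w ∈ C
    · have : C \ {w} = (fun z : Circle => ((φ.symm z : C) : Dend X)) '' {φ ⟨w, hw⟩}ᶜ := by
        ext v
        constructor
        · rintro ⟨hv, hvw⟩
          refine ⟨φ ⟨v, hv⟩, ?_, by simp⟩
          intro h
          apply hvw
          have := φ.injective h
          exact congrArg Subtype.val this
        · rintro ⟨z, hz, rfl⟩
          refine ⟨(φ.symm z).2, ?_⟩
          intro h
          apply hz
          have h' : φ.symm z = ⟨w, hw⟩ := Subtype.ext h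
          rw [← h']; simp
      rw [this]
      exact (circle_compl _).image _ hcont.continuousOn
    · have : C \ {w} = (fun z : Circle => ((φ.symm z : C) : Dend X)) '' univ := by
        ext v
        constructor
        · rintro ⟨hv, hvw⟩
          exact ⟨φ ⟨v, hv⟩, trivial, by simp⟩
        · rintro ⟨z, hz, rfl⟩
          refine ⟨(φ.symm z).2, ?_⟩
          intro h
          apply hw
          have h' : ((φ.symm z : C) : Dend X) = w := h
          rw [← h']
          exact (φ.symm z).2
      rw [this]
      exact isPreconnected_univ.image _ hcont.continuousOn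
  -- key separation statement
  have key : ∀ (x1 x2 : X) (r1 r2 : ℝ), 0 ≤ r1 → r1 ≤ 1 → 0 ≤ r2 → r2 ≤ 1 →
      P x1 r1 ∈ C → P x2 r2 ∈ C → r1 < max (max r1 r2) (dist x1 x2) → False := by
    intro x1 x2 r1 r2 h10 h11 h20 h21 hC1 hC2 hlt
    obtain ⟨h, hh1, hh2⟩ := exists_between hlt
    have hm : max (max r1 r2) (dist x1 x2) ≤ 1 := max_le (max_le h11 h21) (h1 _ _)
    have hh0 : 0 ≤ h := h10.trans hh1.le
    have hh3 : h ≤ 1 := hh2.le.trans hm
    set w := P x1 h with hw
    set o := P x1 1 with ho
    set F : Dend X → ℝ := fun q => dist q o - dist q w - dist w o with hF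
    have hFc : Continuous F := by
      apply Continuous.sub
      · exact (continuous_id.dist continuous_const).sub (continuous_id.dist continuous_const)
      · exact continuous_const
    have hFval : ∀ (x : X) (r : ℝ), 0 ≤ r → r ≤ 1 →
        F (P x r) = 2 * h - 2 * max (max r h) (dist x x1) := by
      intro x r hr0 hr1
      simp only [hF, hw, ho]
      rw [dist_P hr0 hr1 zero_le_one le_rfl, dist_P hr0 hr1 hh0 hh3,
        dist_P hh0 hh3 zero_le_one le_rfl]
      rw [max_eq_right hr1, max_eq_right hh3, max_eq_left (h1 _ _), dist_self,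
        max_eq_left zero_le_one]
      ring
    have hUopen : IsOpen ({q | F q = 0} \ {w} : Set (Dend X)) := by
      rw [Metric.isOpen_iff]
      rintro q ⟨hq, hqw⟩
      obtain ⟨x', r', hr0, hr1, rfl⟩ := exists_P q
      have hq' : F (P x' r') = 0 := hq
      rw [hFval x' r' hr0 hr1] at hq'
      have hmax : max (max r' h) (dist x' x1) = h := by linarith
      have hr'h : r' ≤ h := by
        rw [← hmax]; exact (le_max_left _ _).trans (le_max_left _ _)
      have hd : dist x' x1 ≤ h := by
        rw [← hmax]; exact le_max_right _ _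
      have hr'lt : r' < h := by
        refine lt_of_le_of_ne hr'h ?_
        intro he
        apply hqw
        rw [he]
        exact P_eq hh0 hh3 hd
      refine ⟨h - r', by linarith, ?_⟩
      intro q'' hq''
      obtain ⟨x'', r'', hr0'', hr1'', rfl⟩ := exists_P q''
      rw [Metric.mem_ball, dist_P hr0'' hr1'' hr0 hr1] at hq''
      have e1 : r'' ≤ max (max r'' r') (dist x'' x') := (le_max_left _ _).trans (le_max_left _ _)
      have e2 : dist x'' x' ≤ max (max r'' r') (dist x'' x') := le_max_right _ _
      have e3 : r' ≤ max (max r'' r') (dist x'' x') := (le_max_right _ _).trans (le_max_left _ _)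
      have hr''lt : r'' < h := by linarith
      have hd'' : dist x'' x' < h := by linarith
      have hd3 : dist x'' x1 ≤ h := (dist_triangle_max _ x' _).trans (max_le hd''.le hd)
      constructor
      · change F (P x'' r'') = 0
        rw [hFval x'' r'' hr0'' hr1'', max_eq_right hr''lt.le, max_eq_left hd3]
        ring
      · intro he
        have he' : P x'' r'' = w := he
        have := dist_eq_zero.2 he'
        rw [hw, dist_P hr0'' hr1'' hh0 hh3, max_eq_right hr''lt.le, max_eq_left hd3] at this
        linarith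
    have hVopen : IsOpen {q | F q < 0} := isOpen_lt hFc continuous_const
    have hF1 : F (P x1 r1) = 0 := by
      rw [hFval x1 r1 h10 h11, dist_self, max_eq_right hh1.le, max_eq_left hh0]
      ring
    have hF2 : F (P x2 r2) < 0 := by
      rw [hFval x2 r2 h20 h21]
      have : h < max (max r2 h) (dist x2 x1) := by
        rcases lt_max_iff.1 hh2 with h' | h'
        · rcases lt_max_iff.1 h' with h'' | h''
          · exact absurd h'' (not_lt.2 hh1.le)
          · exact lt_of_lt_of_le h'' ((le_max_left _ _).trans (le_max_left _ _))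
        · rw [dist_comm] at h'
          exact lt_of_lt_of_le h' (le_max_right _ _)
      linarith
    have hFw : F w = 0 := by
      rw [hw, hFval x1 h hh0 hh3, dist_self, max_self, max_eq_left hh0]
      ring
    have hw1 : P x1 r1 ≠ w := by
      intro he
      have := dist_eq_zero.2 he
      rw [hw, dist_P h10 h11 hh0 hh3, dist_self, max_eq_right hh1.le, max_eq_left hh0] at this
      linarith
    have hw2 : P x2 r2 ≠ w := by
      intro he
      rw [he, hFw] at hF2
      exact lt_irrefl _ hF2
    have hcov : C \ {w} ⊆ ({q | F q = 0} \ {w}) ∪ {q | F q < 0} := by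
      rintro q ⟨-, hqw⟩
      obtain ⟨x, r, hr0, hr1, rfl⟩ := exists_P q
      have hle : F (P x r) ≤ 0 := by
        rw [hFval x r hr0 hr1]
        have : h ≤ max (max r h) (dist x x1) := (le_max_right _ _).trans (le_max_left _ _)
        linarith
      rcases hle.lt_or_eq with h' | h'
      · exact Or.inr h'
      · exact Or.inl ⟨h', hqw⟩
    obtain ⟨q, -, ⟨hq1, -⟩, hq2⟩ := hrem w _ _ hUopen hVopen hcov
      ⟨P x1 r1, ⟨hC1, hw1⟩, hF1, hw1⟩ ⟨P x2 r2, ⟨hC2, hw2⟩, hF2⟩
    have hq1' : F q = 0 := hq1
    have hq2' : F q < 0 := hq2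
    rw [hq1'] at hq2'
    exact lt_irrefl _ hq2'
  -- two distinct points
  have hne : (φ.symm 1 : Dend X) ≠ (φ.symm (-1) : Dend X) := by
    intro h
    have h' := φ.symm.injective (Subtype.ext h)
    have h2 := congrArg (fun z : Circle => (z : ℂ)) h'
    simp at h2
    norm_num [Complex.ext_iff] at h2
  obtain ⟨x1, r1, h10, h11, e1⟩ := exists_P (φ.symm 1 : Dend X)
  obtain ⟨x2, r2, h20, h21, e2⟩ := exists_P (φ.symm (-1) : Dend X)
  have hC1 : P x1 r1 ∈ C := e1 ▸ (φ.symm 1).2
  have hC2 : P x2 r2 ∈ C := e2 ▸ (φ.symm (-1)).2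
  have hd : 0 < dist (P x1 r1) (P x2 r2) := by
    rw [dist_pos, ← e1, ← e2]; exact hne
  rw [dist_P h10 h11 h20 h21] at hd
  by_cases hc : r1 < max (max r1 r2) (dist x1 x2)
  · exact key x1 x2 r1 r2 h10 h11 h20 h21 hC1 hC2 hc
  · refine key x2 x1 r2 r1 h20 h21 h10 h11 hC2 hC1 ?_
    rw [max_comm r2, dist_comm]
    push Not at hc
    linarith

theorem isDendrite [CompactSpace X] [Nonempty X] (h1 : ∀ x y : X, dist x y ≤ 1) :
    IsDendrite (Dend X) where
  compact := compactSpace_dend
  connected := by
    obtain ⟨x⟩ := ‹Nonempty X›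
    have hu : (univ : Set (Dend X)) = Metric.ball (P x 1) 3 := by
      symm
      rw [eq_univ_iff_forall]
      intro q
      obtain ⟨x', r', hr0, hr1, rfl⟩ := exists_P q
      rw [Metric.mem_ball, dist_P hr0 hr1 zero_le_one le_rfl]
      have : max (max r' 1) (dist x' x) ≤ 1 := max_le (max_le hr1 le_rfl) (h1 _ _)
      linarith
    have hp : PreconnectedSpace (Dend X) := ⟨hu ▸ ball_preconnected h1 _ _⟩
    exact { toPreconnectedSpace := hp, toNonempty := ⟨P x 1⟩ }
  locallyConnected := by
    apply locallyConnectedSpace_of_connected_bases (fun (x : Dend X) (ε : ℝ) => Metric.ball x ε)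
      (fun _ ε => 0 < ε) (fun x => Metric.nhds_basis_ball)
    intro x ε _
    exact ball_preconnected h1 x ε
  noCircle := noCircle h1

end Tool

end Pool.Agent.R470.Dendrite
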