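import Pool.Agent.R470.DendriteSeq

/-!
# An ultrametric system with an uncountable DC3 set and no Li-Yorke pair
-/

open Set Filter Topology Finset PadicInt

namespace Pool.Agent.R470.LY

open Pool.Agent.R470.Dendrite

attribute [local instance] PiNat.metricSpace

/-- `2 ^ m k` are the moduli. -/
def m (k : ℕ) : ℕ := ∑ j ∈ range k, (j + 5)

theorem m_succ (k : ℕ) : m (k + 1) = m k + (k + 5) := by simp [m, sum_range_succ]

theorem m_zero : m 0 = 0 := by simp [m]

theorem le_m (k : ℕ) : k ≤ m k := by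
  induction k with
  | zero => simp
  | succ k ih => rw [m_succ]; omega

theorem m_mono : Monotone m := monotone_nat_of_le_succ (fun k => by rw [m_succ]; omega)

/-- Indicator of the event that the `j`-th digit of `n` is nonzero. -/
def G (j n : ℕ) : ZMod 2 := if n % 2 ^ m (j + 1) < 2 ^ m j then 0 else 1

/-- The same on the 2-adic integers. -/
noncomputable def g (j : ℕ) (z : ℤ_[2]) : ZMod 2 :=
  if (toZModPow (m (j + 1)) z).val < 2 ^ m j then 0 else 1

theorem g_natCast (j n : ℕ) : g j (n : ℤ_[2]) = G j n := by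
  unfold g G
  rw [map_natCast, ZMod.val_natCast]

theorem toZMod_eq_of_dist {k : ℕ} {z w : ℤ_[2]} (h : dist z w < (2:ℝ) ^ (-(k:ℤ) + 1)) :
    toZModPow k z = toZModPow k w := by
  rw [dist_eq_norm, show (2:ℝ) = ((2:ℕ):ℝ) by norm_num,
    ← PadicInt.norm_le_pow_iff_norm_lt_pow_add_one, PadicInt.norm_le_pow_iff_mem_span_pow,
    ← PadicInt.ker_toZModPow, RingHom.mem_ker, map_sub, sub_eq_zero] at h
  exact h

theorem isLocallyConstant_toZModPow (k : ℕ) :
    IsLocallyConstant (fun z : ℤ_[2] => toZModPow k z) := by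
  rw [IsLocallyConstant.iff_eventually_eq]
  intro z
  rw [Metric.eventually_nhds_iff]
  exact ⟨(2:ℝ) ^ (-(k:ℤ) + 1), by positivity, fun w hw => toZMod_eq_of_dist hw⟩

theorem continuous_g (j : ℕ) : Continuous (g j) := by
  have : IsLocallyConstant (g j) := (isLocallyConstant_toZModPow (m (j + 1))).comp
    (fun t : ZMod (2 ^ m (j + 1)) => if t.val < 2 ^ m j then (0 : ZMod 2) else 1)
  exact this.continuous

/-- The ambient space. -/
abbrev Amb : Type := (ℕ → ZMod 2) × (ℕ → ZMod 2) × ℤ_[2]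

/-- The map on the ambient space. -/
noncomputable def T0 (x : Amb) : Amb := (x.1, fun n => x.2.1 (n + 1), x.2.2 + 1)

/-- The compact invariant subset. -/
def K : Set Amb := {x | ∀ k i : ℕ, toZModPow (m k) (x.2.2 + (i : ℤ_[2]) + 1) ≠ 0 →
  x.2.1 (i + 1) - x.2.1 i = ∑ j ∈ range k, x.1 j * (g j (x.2.2 + (i : ℤ_[2]) + 1) - g j (x.2.2 + (i : ℤ_[2])))}

theorem isClosed_K : IsClosed K := by
  have : K = ⋂ k : ℕ, ⋂ i : ℕ, ({x : Amb | toZModPow (m k) (x.2.2 + (i : ℤ_[2]) + 1) = 0} ∪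
      {x : Amb | x.2.1 (i + 1) - x.2.1 i =
        ∑ j ∈ range k, x.1 j * (g j (x.2.2 + (i : ℤ_[2]) + 1) - g j (x.2.2 + (i : ℤ_[2])))}) := by
    ext x
    simp only [K, Set.mem_ofPred_eq, Set.mem_iInter, Set.mem_union]
    exact forall_congr' fun k => forall_congr' fun i => by tauto
  rw [this]
  refine isClosed_iInter fun k => isClosed_iInter fun i => IsClosed.union ?_ ?_
  · have h := ((isLocallyConstant_toZModPow (m k)).comp_continuous
      (f := fun x : Amb => x.2.2 + (i : ℤ_[2]) + 1) (by fun_prop)).isClosed_fiber 0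
    exact h
  · apply isClosed_eq
    · fun_prop
    · refine continuous_finsetSum _ fun j _ => ?_
      have h1 := continuous_g j
      fun_prop

theorem T0_mem {x : Amb} (hx : x ∈ K) : T0 x ∈ K := by
  intro k i h
  have h' := hx k (i + 1)
  simp only [T0] at h ⊢
  push_cast at h'
  have e1 : x.2.2 + 1 + (i : ℤ_[2]) = x.2.2 + ((i : ℤ_[2]) + 1) := by ring
  rw [e1] at h ⊢
  exact h' h

/-- The compact ultrametric space. -/
abbrev X : Type := K

noncomputable instance : IsUltrametricDist Amb := prod_ultra seq_ultra (prod_ultra seq_ultra inferInstance)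

instance : CompactSpace X := isCompact_iff_compactSpace.1 isClosed_K.isCompact

/-- The map. -/
noncomputable def T (x : X) : X := ⟨T0 x, T0_mem x.2⟩

theorem padic_dist_le_one (z w : ℤ_[2]) : dist z w ≤ 1 := by
  rw [dist_eq_norm]; exact PadicInt.norm_le_one _

theorem dist_le_one (x y : X) : dist x y ≤ 1 := by
  rw [Subtype.dist_eq, Prod.dist_eq, Prod.dist_eq]
  exact max_le (seq_dist_le_one _ _) (max_le (seq_dist_le_one _ _) (padic_dist_le_one _ _))

theorem dist_T (x y : X) : dist (T x) (T y) ≤ 2 * dist x y := by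
  rw [Subtype.dist_eq, Prod.dist_eq, Prod.dist_eq, Subtype.dist_eq, Prod.dist_eq, Prod.dist_eq]
  have h1 : dist x.1.1 y.1.1 ≤ max (dist x.1.1 y.1.1) (max (dist x.1.2.1 y.1.2.1)
    (dist x.1.2.2 y.1.2.2)) := le_max_left _ _
  have h2 : dist x.1.2.1 y.1.2.1 ≤ max (dist x.1.1 y.1.1) (max (dist x.1.2.1 y.1.2.1)
    (dist x.1.2.2 y.1.2.2)) := (le_max_left _ _).trans (le_max_right _ _)
  have h3 : dist x.1.2.2 y.1.2.2 ≤ max (dist x.1.1 y.1.1) (max (dist x.1.2.1 y.1.2.1)
    (dist x.1.2.2 y.1.2.2)) := (le_max_right _ _).trans (le_max_right _ _)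
  have h4 : (0:ℝ) ≤ dist x.1.1 y.1.1 := dist_nonneg
  have h5 := seq_shift_le x.1.2.1 y.1.2.1
  have h6 : (0:ℝ) ≤ dist x.1.2.2 y.1.2.2 := dist_nonneg
  refine max_le ?_ (max_le ?_ ?_)
  · change dist x.1.1 y.1.1 ≤ _
    linarith
  · change dist (fun n => x.1.2.1 (n + 1)) (fun n => y.1.2.1 (n + 1)) ≤ _
    linarith
  · change dist (x.1.2.2 + 1) (y.1.2.2 + 1) ≤ _
    rw [dist_add_right]
    linarith

theorem iter_T (x : X) (n : ℕ) :
    ((T^[n] x : X) : Amb) = (x.1.1, fun i => x.1.2.1 (i + n), x.1.2.2 + (n : ℤ_[2])) := by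
  induction n with
  | zero => simp
  | succ n ih =>
    rw [Function.iterate_succ_apply']
    change T0 (T^[n] x : X) = _
    rw [ih]
    simp only [T0]
    refine Prod.ext rfl (Prod.ext ?_ ?_)
    · funext i
      change x.1.2.1 (i + 1 + n) = x.1.2.1 (i + (n + 1))
      rw [show i + 1 + n = i + (n + 1) by omega]
    · push_cast
      ring

theorem dist_iter (x y : X) (n : ℕ) : dist (T^[n] x) (T^[n] y) =
    max (dist x.1.1 y.1.1) (max (dist (fun i => x.1.2.1 (i + n)) (fun i => y.1.2.1 (i + n)))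
      (dist x.1.2.2 y.1.2.2)) := by
  rw [Subtype.dist_eq, iter_T, iter_T, Prod.dist_eq, Prod.dist_eq]
  simp only [dist_add_right]

/-! ### Distinct points are never a proximal, non-asymptotic pair -/

theorem trichotomy (x y : X) :
    (∃ c > 0, ∀ᶠ n in atTop, c ≤ dist (T^[n] x) (T^[n] y)) ∨
    (∀ᶠ n in atTop, dist (T^[n] x) (T^[n] y) = 0) := by
  by_cases ha : x.1.1 = y.1.1
  swap
  · left
    refine ⟨dist x.1.1 y.1.1, dist_pos.2 ha, Eventually.of_forall fun n => ?_⟩
    rw [dist_iter]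
    exact le_max_left _ _
  by_cases hz : x.1.2.2 = y.1.2.2
  swap
  · left
    refine ⟨dist x.1.2.2 y.1.2.2, dist_pos.2 hz, Eventually.of_forall fun n => ?_⟩
    rw [dist_iter]
    exact (le_max_right _ _).trans (le_max_right _ _)
  -- increments agree from some point on
  have hinc : ∃ i0 : ℕ, ∀ i ≥ i0, x.1.2.1 (i + 1) - x.1.2.1 i = y.1.2.1 (i + 1) - y.1.2.1 i := by
    have h1 : ∀ i : ℕ, x.1.2.2 + (i : ℤ_[2]) + 1 ≠ 0 →
        x.1.2.1 (i + 1) - x.1.2.1 i = y.1.2.1 (i + 1) - y.1.2.1 i := by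
      intro i hi
      have : ∃ k : ℕ, toZModPow (m k) (x.1.2.2 + (i : ℤ_[2]) + 1) ≠ 0 := by
        by_contra hcon
        push Not at hcon
        apply hi
        rw [← PadicInt.ext_of_toZModPow]
        intro n
        rw [map_zero, ← PadicInt.cast_toZModPow n (m n) (le_m n), hcon n]
        simp
      obtain ⟨k, hk⟩ := this
      have e1 := x.2 k i hk
      have e2 := y.2 k i (by rw [← hz]; exact hk)
      rw [e1, e2, ha, hz]
    by_cases h2 : ∃ i : ℕ, x.1.2.2 + (i : ℤ_[2]) + 1 = 0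
    · obtain ⟨i, hi⟩ := h2
      refine ⟨i + 1, fun i' hi' => h1 i' ?_⟩
      intro h3
      have h4 : (i : ℤ_[2]) = i' := by
        have := hi.trans h3.symm
        simpa using this
      have h5 : i = i' := by exact_mod_cast h4
      omega
    · push Not at h2
      exact ⟨0, fun i _ => h1 i (h2 i)⟩
  obtain ⟨i0, hi0⟩ := hinc
  have hconst : ∀ i ≥ i0, x.1.2.1 i - y.1.2.1 i = x.1.2.1 i0 - y.1.2.1 i0 := by
    intro i hi
    induction i, hi using Nat.le_induction with
    | base => rfl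
    | succ i hi ih =>
      rw [← ih]
      have := hi0 i hi
      linear_combination this
  by_cases hc : x.1.2.1 i0 - y.1.2.1 i0 = 0
  · right
    filter_upwards [eventually_ge_atTop i0] with n hn
    rw [dist_iter, ha, hz, dist_self, dist_self]
    have : (fun i => x.1.2.1 (i + n)) = (fun i => y.1.2.1 (i + n)) := by
      funext i
      have := hconst (i + n) (by omega)
      rw [hc, sub_eq_zero] at this
      exact this
    rw [this, dist_self]
    simp
  · left
    refine ⟨1, one_pos, ?_⟩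
    filter_upwards [eventually_ge_atTop i0] with n hn
    rw [dist_iter]
    have h2 : dist (fun i => x.1.2.1 (i + n)) (fun i => y.1.2.1 (i + n)) = 1 := by
      apply seq_dist_eq_one
      intro h
      apply hc
      rw [← hconst n hn, sub_eq_zero]
      simpa using h
    rw [h2]
    exact (le_max_left _ _).trans (le_max_right _ _)

/-! ### The family of points -/

/-- The digit sum `∑_{j<k} a_j [digit j of n is nonzero]`. -/
def S (a : ℕ → ZMod 2) (k n : ℕ) : ZMod 2 := ∑ j ∈ range k, a j * G j n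

theorem G_eq_zero {j n : ℕ} (h : n < 2 ^ m j) : G j n = 0 := by
  unfold G
  rw [if_pos (lt_of_le_of_lt (Nat.mod_le _ _) h)]

theorem lt_two_pow_m (n : ℕ) : n < 2 ^ m n :=
  lt_of_lt_of_le Nat.lt_two_pow_self (Nat.pow_le_pow_right (by norm_num) (le_m n))

theorem two_pow_m_mono {j k : ℕ} (h : j ≤ k) : 2 ^ m j ≤ 2 ^ m k :=
  Nat.pow_le_pow_right (by norm_num) (m_mono h)

/-- If `n < 2 ^ m k` then only the first `k` digits matter. -/
theorem S_eq_of_le (a : ℕ → ZMod 2) {k l n : ℕ} (hn : n < 2 ^ m k) (hkl : k ≤ l) :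
    S a l n = S a k n := by
  unfold S
  symm
  apply Finset.sum_subset (range_subset_range.2 hkl)
  intro j _ hj
  rw [Finset.mem_range, not_lt] at hj
  rw [G_eq_zero (lt_of_lt_of_le hn (two_pow_m_mono hj)), mul_zero]

/-- The sequence `y^a`. -/
def Y (a : ℕ → ZMod 2) (n : ℕ) : ZMod 2 := S a n n

theorem Y_eq (a : ℕ → ZMod 2) {k n : ℕ} (h : n < 2 ^ m k) : Y a n = S a k n := by
  unfold Y
  rcases le_total n k with h1 | h1
  · exact (S_eq_of_le a (lt_two_pow_m n) h1).symm
  · exact S_eq_of_le a h h1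

theorem G_succ {j k i : ℕ} (hkj : k ≤ j) (h : (i + 1) % 2 ^ m k ≠ 0) : G j (i + 1) = G j i := by
  unfold G
  have hA : (i + 1) % 2 ^ m j ≠ 0 := by
    intro h0
    apply h
    have h1 : 2 ^ m k ∣ 2 ^ m j := pow_dvd_pow 2 (m_mono hkj)
    exact Nat.mod_eq_zero_of_dvd (h1.trans (Nat.dvd_of_mod_eq_zero h0))
  have hdvd : 2 ^ m j ∣ 2 ^ m (j + 1) := pow_dvd_pow 2 (m_mono (Nat.le_succ j))
  have hB : (i + 1) % 2 ^ m (j + 1) ≠ 0 := by
    intro h0
    exact hA (Nat.mod_eq_zero_of_dvd (hdvd.trans (Nat.dvd_of_mod_eq_zero h0)))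
  have hBi : (i + 1) % 2 ^ m (j + 1) = i % 2 ^ m (j + 1) + 1 := by
    rcases Nat.lt_or_ge (i % 2 ^ m (j + 1) + 1) (2 ^ m (j + 1)) with h1 | h1
    · rw [← Nat.mod_add_mod, Nat.mod_eq_of_lt h1]
    · exfalso
      apply hB
      have h2 : i % 2 ^ m (j + 1) + 1 = 2 ^ m (j + 1) :=
        le_antisymm (Nat.mod_lt _ (by positivity)) h1
      rw [← Nat.mod_add_mod, h2, Nat.mod_self]
  have hne : i % 2 ^ m (j + 1) + 1 ≠ 2 ^ m j := by
    intro h1
    apply hA
    have h2 : (i + 1) % 2 ^ m (j + 1) % 2 ^ m j = (i + 1) % 2 ^ m j := Nat.mod_mod_of_dvd _ hdvd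
    rw [← h2, hBi, h1, Nat.mod_self]
  rw [hBi]
  by_cases h1 : i % 2 ^ m (j + 1) < 2 ^ m j
  · rw [if_pos h1, if_pos (by omega)]
  · rw [if_neg h1, if_neg (by omega)]

theorem mem_K (a : ℕ → ZMod 2) : ((a, Y a, 0) : Amb) ∈ K := by
  intro k i h
  simp only at h ⊢
  have hcast : ((0 : ℤ_[2]) + (i : ℤ_[2]) + 1) = ((i + 1 : ℕ) : ℤ_[2]) := by push_cast; ring
  rw [hcast] at h ⊢
  rw [zero_add]
  simp only [g_natCast]
  have hne : (i + 1) % 2 ^ m k ≠ 0 := by
    intro h0
    apply h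
    rw [map_natCast, ZMod.natCast_eq_zero_iff]
    exact Nat.dvd_of_mod_eq_zero h0
  set L := max k (i + 1) with hL
  have h1 : Y a (i + 1) = S a L (i + 1) :=
    Y_eq a (lt_of_lt_of_le (lt_two_pow_m _) (two_pow_m_mono (le_max_right _ _)))
  have h2 : Y a i = S a L i :=
    Y_eq a (lt_of_lt_of_le (lt_two_pow_m _) (two_pow_m_mono ((Nat.le_succ i).trans
      (le_max_right _ _))))
  rw [h1, h2]
  unfold S
  rw [← Finset.sum_sub_distrib]
  symm
  refine (Finset.sum_subset (range_subset_range.2 (le_max_left k (i + 1))) ?_).trans ?_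
  · intro j _ hj
    rw [Finset.mem_range, not_lt] at hj
    rw [G_succ hj hne, sub_self, mul_zero]
  · exact Finset.sum_congr rfl fun j _ => by ring

/-- The point `x^a`. -/
noncomputable def pt (a : ℕ → ZMod 2) : X := ⟨(a, Y a, 0), mem_K a⟩

instance : Nonempty X := ⟨pt 0⟩

theorem dist_iter_pt (a b : ℕ → ZMod 2) (n : ℕ) : dist (T^[n] (pt a)) (T^[n] (pt b)) =
    max (dist a b) (dist (fun i => Y a (i + n)) (fun i => Y b (i + n))) := by
  rw [dist_iter]
  simp only [pt, dist_self]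
  rw [max_eq_left (dist_nonneg : (0:ℝ) ≤ dist (fun i => Y a (i + n)) (fun i => Y b (i + n)))]

theorem lt_iff {a b : ℕ → ZMod 2} (h0 : a 0 = b 0) {δ : ℝ} (h1 : 1 < δ) (h2 : δ < 2) (n : ℕ) :
    2 * dist (T^[n] (pt a)) (T^[n] (pt b)) < δ ↔ Y a n = Y b n := by
  rw [dist_iter_pt]
  constructor
  · intro h
    by_contra hne
    have : dist (fun i => Y a (i + n)) (fun i => Y b (i + n)) = 1 :=
      seq_dist_eq_one (by simpa using hne)
    rw [this, max_eq_right (seq_dist_le_one a b)] at h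
    linarith
  · intro h
    have e1 : dist a b ≤ 1 / 2 := by
      have := seq_dist_le_pow (x := a) (y := b) (n := 1) (by intro i hi; interval_cases i; exact h0)
      simpa using this
    have e2 : dist (fun i => Y a (i + n)) (fun i => Y b (i + n)) ≤ 1 / 2 := by
      have := seq_dist_le_pow (x := fun i => Y a (i + n)) (y := fun i => Y b (i + n)) (n := 1)
        (by intro i hi; interval_cases i; simpa using h)
      simpa using this
    have := max_le e1 e2
    linarith

/-! ### Counting -/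

/-- The bad set. -/
def bad (k : ℕ) : Finset ℕ := (range (2 ^ m k)).filter (fun n => ∃ j < k, n % 2 ^ m (j + 1) < 2 ^ m j)

theorem card_mod_lt (M c L : ℕ) :
    ((range (M * c)).filter (fun n => n % M < L)).card ≤ c * L := by
  have : ((range c) ×ˢ (range L)).card = c * L := by simp
  rw [← this]
  apply Finset.card_le_card_of_injOn (fun n => (n / M, n % M))
  · intro n hn
    simp only [Finset.coe_filter, Finset.mem_range, Set.mem_ofPred_eq] at hn
    simp only [Finset.coe_product, Set.mem_prod, Finset.mem_coe, Finset.mem_range]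
    exact ⟨Nat.div_lt_of_lt_mul hn.1, hn.2⟩
  · intro n _ n' _ h
    simp only [Prod.mk.injEq] at h
    rw [← Nat.div_add_mod n M, ← Nat.div_add_mod n' M, h.1, h.2]

theorem card_bad (k : ℕ) : 16 * (bad k).card ≤ 2 ^ m k := by
  have h1 : bad k ⊆ (range k).biUnion
      (fun j => (range (2 ^ m k)).filter (fun n => n % 2 ^ m (j + 1) < 2 ^ m j)) := by
    intro n hn
    simp only [bad, Finset.mem_filter, Finset.mem_range] at hn
    obtain ⟨hn1, j, hj, hn2⟩ := hn
    rw [Finset.mem_biUnion]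
    exact ⟨j, Finset.mem_range.2 hj, by simp [hn1, hn2]⟩
  have h2 : (bad k).card ≤ ∑ j ∈ range k,
      ((range (2 ^ m k)).filter (fun n => n % 2 ^ m (j + 1) < 2 ^ m j)).card :=
    (Finset.card_le_card h1).trans Finset.card_biUnion_le
  have h3 : ∀ j ∈ range k, 2 ^ (j + 5) *
      ((range (2 ^ m k)).filter (fun n => n % 2 ^ m (j + 1) < 2 ^ m j)).card ≤ 2 ^ m k := by
    intro j hj
    rw [Finset.mem_range] at hj
    have hm := m_mono (Nat.succ_le_of_lt hj)
    obtain ⟨d, hd⟩ := Nat.exists_eq_add_of_le hm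
    have hd' : 2 ^ m k = 2 ^ m (j + 1) * 2 ^ d := by rw [hd, pow_add]
    rw [hd']
    refine (Nat.mul_le_mul_left _ (card_mod_lt _ _ _)).trans ?_
    rw [m_succ, pow_add]
    apply le_of_eq
    ring
  have h4 : ∀ l : ℕ, l ≤ k → 16 * ∑ j ∈ range l,
      ((((range (2 ^ m k)).filter (fun n => n % 2 ^ m (j + 1) < 2 ^ m j)).card : ℕ) : ℝ) ≤
      (1 - (1 / 2) ^ l) * 2 ^ m k := by
    intro l hl
    induction l with
    | zero => simp
    | succ l ih =>
      rw [Finset.sum_range_succ, mul_add]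
      have e1 := ih (by omega)
      have e2 := h3 l (Finset.mem_range.2 (by omega))
      have e3 : (2:ℝ) ^ (l + 5) *
        (((range (2 ^ m k)).filter (fun n => n % 2 ^ m (l + 1) < 2 ^ m l)).card : ℝ) ≤
          2 ^ m k := by exact_mod_cast e2
      have e4 : (0:ℝ) < (1 / 2) ^ l := by positivity
      have e5 : ((1:ℝ) / 2) ^ l * 2 ^ (l + 5) = 32 := by
        rw [pow_add, ← mul_assoc, ← mul_pow]; norm_num
      have e6 := mul_le_mul_of_nonneg_left e3 e4.le
      rw [← mul_assoc, e5] at e6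
      rw [pow_succ]
      nlinarith
  have h5 := h4 k le_rfl
  have h6 : ((bad k).card : ℝ) ≤ ∑ j ∈ range k,
      ((((range (2 ^ m k)).filter (fun n => n % 2 ^ m (j + 1) < 2 ^ m j)).card : ℕ) : ℝ) := by
    exact_mod_cast h2
  have h7 : (0:ℝ) ≤ (1 / 2) ^ k * 2 ^ m k := by positivity
  have h8 : 16 * ((bad k).card : ℝ) ≤ 2 ^ m k := by linarith
  exact_mod_cast h8

theorem Y_of_not_bad (a : ℕ → ZMod 2) {k n : ℕ} (hn : n < 2 ^ m k) (hb : n ∉ bad k) :
    Y a n = ∑ j ∈ range k, a j := by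
  rw [Y_eq a hn]
  unfold S
  apply Finset.sum_congr rfl
  intro j hj
  have : G j n = 1 := by
    unfold G
    rw [if_neg]
    intro h
    apply hb
    simp only [bad, Finset.mem_filter, Finset.mem_range]
    exact ⟨hn, j, Finset.mem_range.1 hj, h⟩
  rw [this, mul_one]

theorem le_u {a b : ℕ → ZMod 2} {k : ℕ} (h : ∑ j ∈ range k, a j = ∑ j ∈ range k, b j) :
    3 / 4 ≤ u (fun n => Y a n = Y b n) (2 ^ m k) := by
  unfold u
  rw [le_div_iff₀ (by positivity)]
  have h1 : (range (2 ^ m k)) \ bad k ⊆ (range (2 ^ m k + 1)).filter (fun n => Y a n = Y b n) := by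
    intro n hn
    rw [Finset.mem_sdiff, Finset.mem_range] at hn
    rw [Finset.mem_filter, Finset.mem_range]
    exact ⟨by omega, by rw [Y_of_not_bad a hn.1 hn.2, Y_of_not_bad b hn.1 hn.2, h]⟩
  have h2 := Finset.card_le_card h1
  have h3 : bad k ⊆ range (2 ^ m k) := Finset.filter_subset _ _
  rw [Finset.card_sdiff_of_subset h3, Finset.card_range] at h2
  have h4 := card_bad k
  have h5 : 3 * 2 ^ m k ≤ 4 * ((range (2 ^ m k + 1)).filter (fun n => Y a n = Y b n)).card := by
    omega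
  have h6 : (3:ℝ) * 2 ^ m k ≤ 4 * (((range (2 ^ m k + 1)).filter (fun n => Y a n = Y b n)).card : ℝ) := by
    exact_mod_cast h5
  push_cast
  linarith

theorem u_le' {a b : ℕ → ZMod 2} {k : ℕ} (hk : 1 ≤ k)
    (h : ∑ j ∈ range k, a j ≠ ∑ j ∈ range k, b j) :
    u (fun n => Y a n = Y b n) (2 ^ m k) ≤ 1 / 4 := by
  unfold u
  rw [div_le_iff₀ (by positivity)]
  have h1 : (range (2 ^ m k + 1)).filter (fun n => Y a n = Y b n) ⊆ insert (2 ^ m k) (bad k) := by
    intro n hn
    rw [Finset.mem_filter, Finset.mem_range] at hn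
    rw [Finset.mem_insert]
    by_contra hcon
    push Not at hcon
    have hlt : n < 2 ^ m k := by omega
    apply h
    rw [← Y_of_not_bad a hlt hcon.2, ← Y_of_not_bad b hlt hcon.2, hn.2]
  have h2 := (Finset.card_le_card h1).trans (Finset.card_insert_le _ _)
  have h4 := card_bad k
  have h5 : 32 ≤ 2 ^ m k := by
    have : m 1 = 5 := by rw [m_succ, m_zero]
    calc 32 = 2 ^ m 1 := by rw [this]; norm_num
      _ ≤ 2 ^ m k := two_pow_m_mono hk
  have h6 : 4 * ((range (2 ^ m k + 1)).filter (fun n => Y a n = Y b n)).card ≤ 2 ^ m k := by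
    omega
  have h7 : (4:ℝ) * (((range (2 ^ m k + 1)).filter (fun n => Y a n = Y b n)).card : ℝ) ≤ 2 ^ m k := by
    exact_mod_cast h6
  push_cast
  linarith

/-- Upper and lower densities of `{n : y^a_n = y^b_n}`. -/
theorem dens {a b : ℕ → ZMod 2} (h : ∃ᶠ j in atTop, a j ≠ b j) :
    liminf (u (fun n => Y a n = Y b n)) atTop ≤ 1 / 4 ∧
    3 / 4 ≤ limsup (u (fun n => Y a n = Y b n)) atTop := by
  have key : ∀ N : ℕ, (∃ k ≥ N, ∑ j ∈ range k, a j = ∑ j ∈ range k, b j) ∧
      (∃ k ≥ N, ∑ j ∈ range k, a j ≠ ∑ j ∈ range k, b j) := by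
    intro N
    obtain ⟨j, hj, hne⟩ := frequently_atTop.1 h N
    have h2 : ∀ s t s' t' : ZMod 2, s' ≠ t' → ((s = t ↔ s + s' ≠ t + t')) := by decide
    by_cases hc : ∑ i ∈ range j, a i = ∑ i ∈ range j, b i
    · refine ⟨⟨j, hj, hc⟩, ⟨j + 1, by omega, ?_⟩⟩
      rw [Finset.sum_range_succ, Finset.sum_range_succ]
      exact (h2 _ _ _ _ hne).1 hc
    · refine ⟨⟨j + 1, by omega, ?_⟩, ⟨j, hj, hc⟩⟩
      rw [Finset.sum_range_succ, Finset.sum_range_succ]
      by_contra hcon
      exact hc ((h2 _ _ _ _ hne).2 hcon)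
  constructor
  · apply liminf_u_le
    rw [frequently_atTop]
    intro N
    obtain ⟨k, hk, hne⟩ := (key (N + 1)).2
    exact ⟨2 ^ m k, by have := lt_two_pow_m k; omega, u_le' (by omega) hne⟩
  · apply le_limsup_u
    rw [frequently_atTop]
    intro N
    obtain ⟨k, hk, he⟩ := (key (N + 1)).1
    exact ⟨2 ^ m k, by have := lt_two_pow_m k; omega, le_u he⟩

/-- The uncountable family of parameters. -/
noncomputable def par (s : Set ℕ) (j : ℕ) : ZMod 2 := by
  classical exact if j = 0 then 0 else if (Nat.unpair j).1 ∈ s then 1 else 0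

theorem par_zero (s : Set ℕ) : par s 0 = 0 := by simp [par]

theorem par_ne {s t : Set ℕ} (h : s ≠ t) : ∃ᶠ j in atTop, par s j ≠ par t j := by
  classical
  obtain ⟨v, hv⟩ : ∃ v, ¬ (v ∈ s ↔ v ∈ t) := by
    by_contra hcon
    push Not at hcon
    exact h (Set.ext hcon)
  rw [frequently_atTop]
  intro N
  refine ⟨Nat.pair v (N + 1), (Nat.le_succ N).trans (Nat.right_le_pair _ _), ?_⟩
  have h0 : Nat.pair v (N + 1) ≠ 0 := by
    have := Nat.right_le_pair v (N + 1)
    omega
  unfold par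
  rw [if_neg h0, if_neg h0, Nat.unpair_pair]
  by_cases h1 : v ∈ s <;> by_cases h2 : v ∈ t <;> simp [h1, h2] at hv ⊢

end Pool.Agent.R470.LY
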